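import Pool.Agent.R467.LT.A
import Pool.Agent.R467.LT.B
import Pool.Agent.R467.LT.F

set_option autoImplicit false

namespace Pool.Agent.Results.MP_f6f14e_gt.TreesHaveLipschitzLightMaps

open Pool.Agent.R467.LT Pool.Agent.R467.LTT

/-- Every bounded turning metric tree (doubling or not) admits a Lipschitz light map into the real
line. -/
theorem result (X : Type) [MetricSpace X] (hX : IsMetricTree X) (hB : BoundedTurning X) :
    ∃ f : X → ℝ, LipschitzLight f := by
  haveI := hX.compact
  haveI := hX.nontrivial
  obtain ⟨B, hB1, hB⟩ := hB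
  obtain ⟨r, -, -⟩ := exists_pair_ne X
  have T : Tr X (10 * B) := ⟨stmtA, hX.arc, stmtB X B hB1 hB⟩
  exact main_tr T (by linarith) r

end Pool.Agent.Results.MP_f6f14e_gt.TreesHaveLipschitzLightMaps
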